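import Pool.Agent.Helper77.OC.St

set_option autoImplicit false

namespace Pool.Agent.Helper40.OC.MW

open Pool.Agent.Helper35.PM Pool.Agent.Helper77.HY Pool.Agent.Helper77.OC

theorem main : StMw := by
  classical
  intro V _ G S
  have := Fintype.ofFinite V
  obtain ⟨W, hW, hmin⟩ := Set.exists_min_image {U : Finset V | S ⊆ U}
    (fun U => toLex (df G U, U.card)) (Set.toFinite _) ⟨S, Finset.Subset.refl _⟩
  have hmin' : ∀ U : Finset V, S ⊆ U → df G W < df G U ∨ (df G W = df G U ∧ W.card ≤ U.card) := by
    intro U hU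
    have h := hmin U hU
    rw [Prod.Lex.le_iff] at h
    exact h
  refine ⟨W, hW, ?_, ?_⟩
  · intro U hU
    rcases hmin' U hU with h | ⟨h, -⟩
    · exact h.le
    · exact h.le
  · intro U hU hUW
    rcases hmin' U hU with h | ⟨-, h⟩
    · exact h
    · exact absurd (Finset.card_lt_card hUW) (not_lt.2 h)

end Pool.Agent.Helper40.OC.MW
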